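import Mathlib
import Pool.Agent.H28.PolyB

set_option autoImplicit false

namespace Pool.Agent.Results.MP_8cd1d0_an.Hilbert

open Filter Topology Set Metric TopologicalSpace
open scoped NNReal

universe u

/-- The Lipschitz constant. -/
noncomputable def lip {M : Type} [MetricSpace M] (f : M → ℝ) : ℝ :=
  sSup {c | ∃ x y, x ≠ y ∧ c = |f x - f y| / dist x y}

/-- Membership in `Lip_0(M)`. -/
def InLip {M : Type} [MetricSpace M] (o : M) (f : M → ℝ) : Prop := (∃ K, LipschitzWith K f) ∧ f o = 0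

/-- The small ball property. -/
def SBP (M : Type) [MetricSpace M] : Prop :=
  ∀ ε > (0 : ℝ), ∃ (x : ℕ → M) (r : ℕ → ℝ), ⋃ n, closedBall (x n) (r n) = univ ∧
    (∀ n, 0 < r n ∧ r n < ε) ∧ Tendsto r atTop (𝓝 0)

/-- Polyhedral normed spaces. -/
def Polyhedral (Z : Type u) [NormedAddCommGroup Z] [NormedSpace ℝ Z] : Prop :=
  ∀ E : Submodule ℝ Z, FiniteDimensional ℝ E →
    ∃ V : Finset Z, (E : Set Z) ∩ closedBall 0 1 = convexHull ℝ V

lemma le_lip {M : Type} [MetricSpace M] {f : M → ℝ} {K : ℝ≥0} (h : LipschitzWith K f) (x y : M) :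
    |f x - f y| ≤ lip f * dist x y := by
  rcases eq_or_ne x y with rfl | hxy
  · simp
  rw [← div_le_iff₀ (dist_pos.2 hxy)]
  refine le_csSup ⟨K, ?_⟩ ⟨x, y, hxy, rfl⟩
  rintro _ ⟨a, b, hab, rfl⟩
  exact (div_le_iff₀ (dist_pos.2 hab)).2 (h.dist_le_mul a b)

abbrev H := lp (fun _ : ℕ => ℝ) 2

lemma sep : SeparableSpace H := by
  rw [← isSeparable_univ_iff]
  have h1 : IsSeparable (range fun k : ℕ => (lp.single 2 k (1 : ℝ) : H)) := (countable_range _).isSeparable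
  refine (h1.span (R := ℝ)).closure.mono fun x _ => ?_
  refine mem_closure_of_tendsto (lp.hasSum_single (by simp) x) (.of_forall fun L => ?_)
  refine Submodule.sum_mem _ fun k _ => ?_
  have : (lp.single 2 k (x k) : H) = x k • lp.single 2 k (1 : ℝ) := by rw [← lp.single_smul]; simp
  rw [this]
  exact Submodule.smul_mem _ _ (Submodule.subset_span ⟨k, rfl⟩)

lemma inf : ¬ FiniteDimensional ℝ H := fun _ => by
  have : Orthonormal ℝ fun k : ℕ => (lp.single 2 k (1 : ℝ) : H) :=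
    orthonormal_iff_ite.2 fun i j => by rw [lp.inner_single_left]; simp [lp.single_apply, Pi.single_apply]
  exact Module.Finite.not_linearIndependent_of_infinite _ this.linearIndependent

theorem result : ∃ (M : Type) (_ : MetricSpace M) (o : M), Nontrivial M ∧ SBP M ∧
    ∃ Y : Submodule ℝ (M → ℝ),
      (∀ f ∈ Y, InLip o f ∧ ∃ x y, x ≠ y ∧ lip f = |f x - f y| / dist x y) ∧
      (∀ g, InLip o g → (∀ ε > 0, ∃ f ∈ Y, lip (g - f) < ε) → g ∈ Y) ∧
      ∀ (Z : Type u) [NormedAddCommGroup Z] [NormedSpace ℝ Z] [CompleteSpace Z] (e : Y ≃ₗ[ℝ] Z)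
        (c C : ℝ), 0 < c → (∀ f : Y, c * lip f.1 ≤ ‖e f‖ ∧ ‖e f‖ ≤ C * lip f.1) → ¬ Polyhedral Z := by
  have := sep
  set d := denseSeq H
  set U : ℕ → Set H := fun k => ⋃ n : ℕ, ball (d n) (1 / (k + 1) * (1 / (n + 1)))
  have hd : ∀ n, d n ∈ ⋂ k, U k := fun n => mem_iInter.2 fun k =>
    mem_iUnion.2 ⟨n, mem_ball_self (by positivity)⟩
  have hU : ∀ k, IsOpen (U k) := fun k => isOpen_iUnion fun n => isOpen_ball
  have hD : ∀ k, Dense (U k) := fun k => (denseRange_denseSeq H).mono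
    (range_subset_iff.2 fun n => mem_iInter.1 (hd n) k)
  have key : ∀ y : H, ∃ p q : ↥(⋂ k, U k), p.1 - q.1 = y := fun y => by
    obtain ⟨q, hq⟩ := (dense_iInter_of_isOpen (f := fun k => U k ∩ (· + y) ⁻¹' U k)
      (fun k => (hU k).inter ((hU k).preimage (by fun_prop))) fun k => (hD k).inter_of_isOpen_left
      ((hD k).preimage (isOpenMap_add_right y)) (hU k)).nonempty
    exact ⟨⟨q + y, mem_iInter.2 fun k => (mem_iInter.1 hq k).2⟩, ⟨q, mem_iInter.2 fun k =>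
      (mem_iInter.1 hq k).1⟩, by simp⟩
  set Φ : H →ₗ[ℝ] ↥(⋂ k, U k) → ℝ := LinearMap.pi fun m => (innerSL ℝ (m.1 - d 0)).toLinearMap
  have h0 : ∀ y m, Φ y m = inner ℝ (m.1 - d 0) y := fun _ _ => rfl
  have h1 : ∀ y p q, Φ y p - Φ y q = inner ℝ (p.1 - q.1) y := fun y p q => by
    rw [h0, h0, ← inner_sub_left]; simp
  have h2 : ∀ y p q, |Φ y p - Φ y q| ≤ ‖y‖ * dist p q := fun y p q => by
    rw [h1, mul_comm, Subtype.dist_eq, dist_eq_norm]; exact abs_real_inner_le_norm _ _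
  have h3 : ∀ y, LipschitzWith ‖y‖₊ (Φ y) := fun y => .of_dist_le_mul (h2 y)
  have h4 : ∀ y, ∃ p q, p ≠ q ∧ ‖y‖ = |Φ y p - Φ y q| / dist p q := fun y => by
    rcases eq_or_ne y 0 with rfl | hy
    · obtain ⟨z, hz⟩ : ∃ z : H, z ≠ 0 := by
        by_contra! h
        have : Subsingleton H := ⟨fun a b => by rw [h a, h b]⟩
        exact inf inferInstance
      obtain ⟨p, q, h⟩ := key z
      exact ⟨p, q, by rintro rfl; simp [eq_comm, hz] at h, by simp⟩
    · obtain ⟨p, q, h⟩ := key y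
      refine ⟨p, q, by rintro rfl; simp [eq_comm, hy] at h, ?_⟩
      rw [h1, Subtype.dist_eq, dist_eq_norm, h, real_inner_self_eq_norm_sq, abs_sq]
      field_simp
  have h5 : ∀ y, lip (Φ y) = ‖y‖ := fun y => IsGreatest.csSup_eq ⟨h4 y, by
    rintro _ ⟨p, q, h, rfl⟩
    exact (div_le_iff₀ (dist_pos.2 h)).2 (h2 y p q)⟩
  refine ⟨↥(⋂ k, U k), inferInstance, ⟨d 0, hd 0⟩, let ⟨p, q, h, _⟩ := h4 0; ⟨p, q, h⟩, fun ε hε => ?_,
    LinearMap.range Φ, ?_, fun g ⟨⟨K, g1⟩, g2⟩ h => ?_, fun Z _ _ _ e c C hc h hZ => ?_⟩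
  · obtain ⟨k, hk⟩ := exists_nat_one_div_lt hε
    refine ⟨fun n => ⟨d n, hd n⟩, fun n => 1 / (k + 1) * (1 / (n + 1)), eq_univ_of_forall fun m => ?_,
      fun n => ⟨by positivity, lt_of_le_of_lt (mul_le_of_le_one_right (by positivity) ?_) hk⟩, ?_⟩
    · obtain ⟨n, hn⟩ := mem_iUnion.1 (mem_iInter.1 m.2 k)
      exact mem_iUnion.2 ⟨n, ball_subset_closedBall hn⟩
    · rw [div_le_one (by positivity)]; simp
    · simpa only [mul_zero] using (tendsto_one_div_add_atTop_nhds_zero_nat (𝕜 := ℝ)).const_mul _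
  · rintro _ ⟨y, rfl⟩
    exact ⟨⟨⟨_, h3 y⟩, by simp [h0]⟩, by rw [h5]; exact h4 y⟩
  · choose f hf k1 using fun n : ℕ => h _ (Nat.one_div_pos_of_nat (n := n))
    choose y hy using hf
    obtain rfl : (fun n => Φ (y n)) = f := funext hy
    have k2 : ∀ n p q, |(g p - g q) - (Φ (y n) p - Φ (y n) q)| ≤ 1 / (n + 1) * dist p q := fun n p q => by
      refine le_trans ?_ ((le_lip (g1.sub (h3 (y n))) p q).trans
        (mul_le_mul_of_nonneg_right (k1 n).le dist_nonneg))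
      exact le_of_eq (congrArg _ (by ring))
    have k3 : ∀ n m, ‖y n - y m‖ ≤ 1 / (n + 1) + 1 / (m + 1) := fun n m => by
      obtain ⟨p, q, a, b⟩ := h4 (y n - y m)
      rw [b, div_le_iff₀ (dist_pos.2 a), map_sub, Pi.sub_apply, Pi.sub_apply, abs_le]
      constructor <;> linarith [abs_le.1 (k2 n p q), abs_le.1 (k2 m p q)]
    have k4 := tendsto_one_div_add_atTop_nhds_zero_nat (𝕜 := ℝ)
    obtain ⟨z, hz⟩ := cauchySeq_tendsto_of_complete (cauchySeq_of_le_tendsto_0 (s := y)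
      (fun N : ℕ => 2 * (1 / (N + 1) : ℝ)) (fun n m N a b => by
        linarith [dist_eq_norm (y n) (y m), k3 n m, Nat.one_div_le_one_div (α := ℝ) a,
          Nat.one_div_le_one_div (α := ℝ) b]) (by simpa only [mul_zero] using k4.const_mul 2))
    refine ⟨z, funext fun m => tendsto_nhds_unique (tendsto_const_nhds.inner hz) ?_⟩
    rw [tendsto_iff_dist_tendsto_zero]
    refine squeeze_zero (fun _ => dist_nonneg) (fun n => ?_)
      (by simpa only [zero_mul] using k4.mul_const (dist m ⟨d 0, hd 0⟩))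
    simpa [g2, h0, Real.dist_eq, abs_sub_comm] using k2 n m ⟨d 0, hd 0⟩
  · refine inf (Pool.Agent.H28.PolyB.hilb (Pool.Agent.H28.PolyB.seg hZ)
      ((e.toLinearMap ∘ₗ Φ.rangeRestrict).mkContinuous C fun y => h5 y ▸ (h ⟨_, y, rfl⟩).2)
      (e.surjective.comp Φ.surjective_rangeRestrict) hc fun y => ?_)
    exact h5 y ▸ (h ⟨_, y, rfl⟩).1

end Pool.Agent.Results.MP_8cd1d0_an.Hilbert
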